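import Pool.Agent.W907.SG.Stmts

set_option autoImplicit false

namespace Pool.Agent.W479.SG.Acyc

open Pool.Agent.W907.SG Module

section

variable {V F M : Type} [Fintype V] [LinearOrder V] [Field F] [AddCommGroup M] [Module F M]

/-- One half of the contraction. -/
def bs (s t : V) (x : Finset V → M) (U : Finset V) : M :=
  if s ∈ U ∧ t ∉ U then sg s (U.erase s) • x (U.erase s) else 0

lemma sg2 (s v : V) (S : Finset V) (hsv : v ≠ s) (hs : s ∉ S) (hv : v ∉ S) :
    sg v (insert s S) * sg s (insert v S) = -(sg s S * sg v S) := by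
  have h1 := sg_swap v s S hsv hv hs
  have h2 := sg_mul_self s S
  have h3 := sg_mul_self s (insert v S)
  have h4 : sg v (insert s S) * sg s (insert v S) =
      (sg v (insert s S) * sg s S) * sg s S * sg s (insert v S) := by
    rw [mul_assoc (sg v (insert s S)), h2, mul_one]
  rw [h4, h1]
  linear_combination (-(sg v S * sg s S)) * h3

lemma bd_bs (s t : V) (hst : s ≠ t) (c x y : Finset V → M) (ρs ρt : M →ₗ[F] M)
    (hc : bd F c = 0) (hxy : ∀ T, c T = x T + y T) (hx : ∀ T, ρs (x T) = - x T)
    (hy : ∀ T, ρt (y T) = - y T) (hcs : ∀ T, s ∈ T → ρs (c T) = - c T)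
    (hct : ∀ T, t ∈ T → ρt (c T) = - c T) (hu : ∀ m, ρs m = - m → ρt m = - m → m = 0)
    (T : Finset V) :
    bd F (bs s t x) T = if t ∈ T then 0 else if s ∈ T then c T else x T := by
  rw [bd_apply]
  by_cases htT : t ∈ T
  · rw [if_pos htT]
    refine Finset.sum_eq_zero fun v _ => ?_
    rw [bs, if_neg (fun h => h.2 (Finset.mem_insert_of_mem htT)), smul_zero]
  rw [if_neg htT]
  by_cases hsT : s ∈ T
  · rw [if_pos hsT]
    obtain ⟨S, hS⟩ : ∃ S, S = T.erase s := ⟨_, rfl⟩
    have hsS : s ∉ S := by rw [hS]; simp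
    have hT : T = insert s S := by rw [hS, Finset.insert_erase hsT]
    have htS : t ∉ S := fun h => htT (by rw [hT]; exact Finset.mem_insert_of_mem h)
    have e1 : ∑ v ∈ Tᶜ, sg v T • bs s t x (insert v T) =
        ∑ v ∈ Tᶜ.erase t, (-(sg s S)) • (sg v S • x (insert v S)) := by
      rw [← Finset.add_sum_erase Tᶜ _ (Finset.mem_compl.2 htT)]
      rw [bs, if_neg (fun h => h.2 (Finset.mem_insert_self _ _)), smul_zero, zero_add]
      refine Finset.sum_congr rfl fun v hv => ?_
      rw [Finset.mem_erase, Finset.mem_compl] at hv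
      have hvs : v ≠ s := fun h => hv.2 (h ▸ hsT)
      have hvS : v ∉ S := fun h => hv.2 (by rw [hT]; exact Finset.mem_insert_of_mem h)
      have hcond : s ∈ insert v T ∧ t ∉ insert v T := by
        refine ⟨Finset.mem_insert_of_mem hsT, ?_⟩
        rw [Finset.mem_insert, not_or]
        exact ⟨hv.1.symm, htT⟩
      have he : (insert v T).erase s = insert v S := by
        rw [Finset.erase_insert_of_ne hvs, hS]
      rw [bs, if_pos hcond, he, smul_smul, smul_smul, hT, sg2 s v S hvs hsS hvS, neg_mul]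
    rw [e1, ← Finset.smul_sum]
    have h2 := congrFun hc S
    rw [bd_apply] at h2
    have hSc : Sᶜ = insert s (insert t (Tᶜ.erase t)) := by
      ext v
      simp only [Finset.mem_compl, Finset.mem_insert, Finset.mem_erase, hT, not_or]
      by_cases h3 : v = s
      · subst h3; simp [hsS]
      · by_cases h4 : v = t
        · subst h4; simp [htS]
        · simp [h3, h4]
    have hs1 : s ∉ insert t (Tᶜ.erase t) := by
      simp only [Finset.mem_insert, Finset.mem_erase, Finset.mem_compl, not_or, not_and, not_not]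
      exact ⟨hst, fun _ => hsT⟩
    have ht1 : t ∉ Tᶜ.erase t := by simp
    rw [hSc, Finset.sum_insert hs1, Finset.sum_insert ht1] at h2
    have h3 : ∑ v ∈ Tᶜ.erase t, sg v S • c (insert v S) =
        ∑ v ∈ Tᶜ.erase t, sg v S • x (insert v S) +
        ∑ v ∈ Tᶜ.erase t, sg v S • y (insert v S) := by
      rw [← Finset.sum_add_distrib]
      exact Finset.sum_congr rfl fun v _ => by rw [hxy, smul_add]
    rw [h3] at h2
    have h4 : sg s S • c (insert s S) + ∑ v ∈ Tᶜ.erase t, sg v S • x (insert v S) = 0 := by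
      have h5 : sg s S • c (insert s S) + ∑ v ∈ Tᶜ.erase t, sg v S • x (insert v S) =
          -(sg t S • c (insert t S) + ∑ v ∈ Tᶜ.erase t, sg v S • y (insert v S)) := by
        rw [Pi.zero_apply] at h2
        rw [eq_neg_iff_add_eq_zero, ← h2]; abel
      apply hu
      · rw [map_add, map_zsmul, hcs _ (Finset.mem_insert_self _ _), map_sum, neg_add, smul_neg]
        congr 1
        rw [← Finset.sum_neg_distrib]
        exact Finset.sum_congr rfl fun v _ => by rw [map_zsmul, hx, smul_neg]
      · rw [h5, map_neg, map_add, map_zsmul, hct _ (Finset.mem_insert_self _ _), map_sum, neg_neg,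
          smul_neg]
        have h6 : ∑ v ∈ Tᶜ.erase t, ρt (sg v S • y (insert v S)) =
            - ∑ v ∈ Tᶜ.erase t, sg v S • y (insert v S) := by
          rw [← Finset.sum_neg_distrib]
          exact Finset.sum_congr rfl fun v _ => by rw [map_zsmul, hy, smul_neg]
        rw [h6]; abel
    have h5 : ∑ v ∈ Tᶜ.erase t, sg v S • x (insert v S) = -(sg s S • c (insert s S)) :=
      (neg_eq_of_add_eq_zero_right h4).symm
    rw [h5, smul_neg, neg_smul, neg_neg, smul_smul, sg_mul_self, one_smul, ← hT]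
  · rw [if_neg hsT]
    rw [Finset.sum_eq_single s]
    · have hcond : s ∈ insert s T ∧ t ∉ insert s T := by
        refine ⟨Finset.mem_insert_self _ _, ?_⟩
        rw [Finset.mem_insert, not_or]
        exact ⟨hst.symm, htT⟩
      rw [bs, if_pos hcond, Finset.erase_insert hsT, smul_smul, sg_mul_self, one_smul]
    · intro v _ hvs
      rw [bs, if_neg, smul_zero]
      rintro ⟨h1, _⟩
      rcases Finset.mem_insert.1 h1 with h | h
      · exact hvs h.symm
      · exact hsT h
    · intro h
      exact absurd (Finset.mem_compl.2 hsT) h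

/-- Membership of one half of the contraction. -/
lemma bs_mem (G : SimpleGraph V) (ρ : V → M →ₗ[F] M) (s t : V) (i : ℕ)
    (hadj : ∀ u, u ≠ s → u ≠ t → G.Adj u s) (x : Finset V → M)
    (hx0 : ∀ T : Finset V, ¬ (G.IsClique (T : Set V) ∧ T.card = i) → x T = 0)
    (hx : ∀ T, ρ s (x T) = - x T)
    (hxu : ∀ T, ∀ u ∈ T, s ∉ T → t ∉ T → ρ u (x T) = - x T) :
    bs s t x ∈ KK G ρ Set.univ ∅ (i + 1) := by
  rw [mem_KK]
  refine ⟨fun U hU => ?_, fun U u hu => ?_⟩
  · unfold bs
    split_ifs with h
    · rw [hx0, smul_zero]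
      rintro ⟨h1, h2⟩
      apply hU
      refine ⟨?_, Set.subset_univ _, ?_⟩
      · rw [← Finset.insert_erase h.1, Finset.coe_insert, SimpleGraph.isClique_insert]
        refine ⟨h1, fun v hv hne => (hadj v hne.symm ?_).symm⟩
        rintro rfl
        exact h.2 (Finset.mem_of_mem_erase (Finset.mem_coe.1 hv))
      · rw [← h2, Finset.card_erase_add_one h.1]
    · rfl
  · have hu' : u ∈ U := by
      rcases hu with h | h
      · exact h
      · exact absurd h (Set.notMem_empty u)
    unfold bs
    split_ifs with h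
    · rw [map_zsmul]
      by_cases hus : u = s
      · subst hus; rw [hx, smul_neg]
      · rw [hxu _ u (Finset.mem_erase.2 ⟨hus, hu'⟩) (by simp)
          (fun h' => h.2 (Finset.mem_of_mem_erase h')), smul_neg]
    · simp

end

theorem acyc : S_ACYC := by
  intro V F M _ _ _ _ _ _ G ρ s t hst hnadj hadj hcomm hdec huniq i
  have key : ZZ G ρ Set.univ ∅ i ≤ BB G ρ Set.univ ∅ i := by
    rintro c ⟨hcK, hcb⟩
    rw [SetLike.mem_coe, mem_KK] at hcK
    obtain ⟨hc0, hcρ⟩ := hcK
    have hcb' : bd F c = 0 := hcb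
    choose x y hxy hx hy using fun T : Finset V => hdec (c T)
    have huq : ∀ a b a' b' : M, a + b = a' + b' → ρ s a = - a → ρ s a' = - a' → ρ t b = - b →
        ρ t b' = - b' → a = a' ∧ b = b' := by
      intro a b a' b' h h1 h2 h3 h4
      have h5 : a - a' = b' - b := by
        rw [sub_eq_sub_iff_add_eq_add, h]; abel
      have h6 : a - a' = 0 := by
        apply huniq
        · rw [map_sub, h1, h2]; abel
        · rw [h5, map_sub, h3, h4]; abel
      refine ⟨sub_eq_zero.1 h6, ?_⟩
      rw [h6] at h5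
      exact (sub_eq_zero.1 h5.symm).symm
    have hz : ∀ T, c T = 0 → x T = 0 ∧ y T = 0 := by
      intro T hT
      refine huq _ _ 0 0 ?_ (hx T) (by simp) (hy T) (by simp)
      rw [← hxy, hT, add_zero]
    have hxyu : ∀ T, ∀ u ∈ T, s ∉ T → t ∉ T → ρ u (x T) = - x T ∧ ρ u (y T) = - y T := by
      intro T u hu hs ht
      have hus : u ≠ s := fun h => hs (h ▸ hu)
      have hut : u ≠ t := fun h => ht (h ▸ hu)
      obtain ⟨j1, j2⟩ := hadj u hus hut
      refine huq _ _ _ _ ?_ ?_ ?_ ?_ ?_
      · rw [← map_add, ← hxy, hcρ T u (Or.inl hu), hxy]; abel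
      · rw [← hcomm u s j1, hx, map_neg]
      · rw [map_neg, hx]
      · rw [← hcomm u t j2, hy, map_neg]
      · rw [map_neg, hy]
    have hc0' : ∀ T : Finset V, ¬ (G.IsClique (T : Set V) ∧ T.card = i) → c T = 0 :=
      fun T hT => hc0 T fun h => hT ⟨h.1, h.2.2⟩
    refine ⟨bs s t x + bs t s y, ?_, ?_⟩
    · refine Submodule.add_mem _ ?_ ?_
      · exact bs_mem G ρ s t i (fun u h1 h2 => (hadj u h1 h2).1) x
          (fun T hT => (hz T (hc0' T hT)).1) hx (fun T u hu h1 h2 => (hxyu T u hu h1 h2).1)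
      · exact bs_mem G ρ t s i (fun u h1 h2 => (hadj u h2 h1).2) y
          (fun T hT => (hz T (hc0' T hT)).2) hy (fun T u hu h1 h2 => (hxyu T u hu h2 h1).2)
    · funext T
      have e1 := bd_bs s t hst c x y (ρ s) (ρ t) hcb' hxy hx hy
        (fun T h => hcρ T s (Or.inl h)) (fun T h => hcρ T t (Or.inl h)) huniq T
      have e2 := bd_bs t s hst.symm c y x (ρ t) (ρ s) hcb' (fun T => by rw [hxy, add_comm]) hy hx
        (fun T h => hcρ T t (Or.inl h)) (fun T h => hcρ T s (Or.inl h))
        (fun m h1 h2 => huniq m h2 h1) T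
      rw [map_add, Pi.add_apply, e1, e2]
      by_cases hs : s ∈ T <;> by_cases ht : t ∈ T
      · simp only [hs, ht, if_true, add_zero]
        symm
        apply hc0'
        rintro ⟨h1, _⟩
        exact hnadj (h1 (Finset.mem_coe.2 hs) (Finset.mem_coe.2 ht) hst)
      · simp [hs, ht]
      · simp [hs, ht]
      · simp only [hs, ht, if_false]
        exact (hxy T).symm
  have heq := le_antisymm key (BB_le_ZZ G ρ Set.univ ∅ i)
  unfold beta
  rw [heq, Nat.sub_self]

theorem dim : S_DIM := by
  intro V F M _ _ _ _ _ _ G ρ A S i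
  unfold beta
  refine (Nat.sub_le _ _).trans ?_
  refine (Submodule.finrank_le _).trans ?_
  rw [Module.finrank_pi_fintype, Finset.sum_const, Finset.card_univ, Fintype.card_finset,
    smul_eq_mul]

end Pool.Agent.W479.SG.Acyc
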