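import Pool.Agent.W684.SG.Stm

/-!
# SG-NAME: from continuous readings to forcing
-/

set_option autoImplicit false

namespace Pool.Agent.W479.SG

open Pool.Agent.Helper669.Forcing Pool.Agent.W684.SG

universe u

section fillfacts

variable {K : Type u}

theorem fill_le (q : Cond K) (z : K × ℕ → Bool) (F : Finset (K × ℕ)) : fill q z F ≤ q := by
  classical
  intro k n b hb
  change (if q.val k n = none ∧ (k, n) ∈ F then some (z (k, n)) else q.val k n) = some b
  rw [if_neg (fun h => by rw [hb] at h; exact Option.some_ne_none _ h.1)]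
  exact hb

theorem fill_val (q : Cond K) (z : K × ℕ → Bool) (F : Finset (K × ℕ)) (k : K) (n : ℕ) :
    (q.val k n = none ∧ (k, n) ∈ F ∧ (fill q z F).val k n = some (z (k, n))) ∨
      (¬ (q.val k n = none ∧ (k, n) ∈ F) ∧ (fill q z F).val k n = q.val k n) := by
  classical
  by_cases h : q.val k n = none ∧ (k, n) ∈ F
  · left
    refine ⟨h.1, h.2, ?_⟩
    change (if q.val k n = none ∧ (k, n) ∈ F then some (z (k, n)) else q.val k n) = _
    rw [if_pos h]
  · right
    refine ⟨h, ?_⟩
    change (if q.val k n = none ∧ (k, n) ∈ F then some (z (k, n)) else q.val k n) = _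
    rw [if_neg h]

theorem decides_fill (q : Cond K) (z : K × ℕ → Bool) (F : Finset (K × ℕ)) :
    Decides (fill q z F) F := by
  rintro ⟨k, n⟩ hd
  rcases fill_val q z F k n with ⟨_, _, h⟩ | ⟨h1, h⟩
  · change (fill q z F).val k n ≠ none
    rw [h]; exact Option.some_ne_none _
  · change (fill q z F).val k n ≠ none
    rw [h]
    intro h2
    exact h1 ⟨h2, hd⟩

theorem extends_fill {q : Cond K} {z : K × ℕ → Bool} (F : Finset (K × ℕ)) (hz : Extends z q) :
    Extends z (fill q z F) := by
  intro k n b hb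
  rcases fill_val q z F k n with ⟨_, _, h⟩ | ⟨_, h⟩
  · rw [h] at hb
    exact Option.some.inj hb
  · rw [h] at hb
    exact hz k n b hb

theorem le_fill {q r : Cond K} {z : K × ℕ → Bool} {F : Finset (K × ℕ)} (hr : r ≤ q)
    (hd : Decides r F) (hz : Extends z r) : r ≤ fill q z F := by
  intro k n b hb
  rcases fill_val q z F k n with ⟨_, h1, h⟩ | ⟨_, h⟩
  · rw [h] at hb
    have h2 := hd (k, n) h1
    obtain ⟨b', hb'⟩ := Option.ne_none_iff_exists'.1 h2
    have h3 := hz k n b' hb'
    rw [h3] at hb
    rw [← hb]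
    exact hb'
  · rw [h] at hb
    exact hr k n b hb

theorem exists_extends (r : Cond K) : ∃ z, Extends z r := by
  refine ⟨fun d => (r.val d.1 d.2).getD false, ?_⟩
  intro k n b hb
  change (r.val k n).getD false = b
  rw [hb]
  rfl

theorem extends_mono {r q : Cond K} {z : K × ℕ → Bool} (h : r ≤ q) (hz : Extends z r) :
    Extends z q := fun k n b hb => hz k n b (h k n b hb)

theorem decides_mono {r q : Cond K} {F : Finset (K × ℕ)} (h : r ≤ q) (hd : Decides q F) :
    Decides r F := by
  intro d hdF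
  obtain ⟨b, hb⟩ := Option.ne_none_iff_exists'.1 (hd d hdF)
  rw [h d.1 d.2 b hb]
  exact Option.some_ne_none _

theorem decides_subset {r : Cond K} {F G : Finset (K × ℕ)} (h : F ⊆ G) (hd : Decides r G) :
    Decides r F := fun d hdF => hd d (h hdF)

/-- total functions extending a condition which decides `F` agree on `F` -/
theorem extends_agree {r : Cond K} {F : Finset (K × ℕ)} (hd : Decides r F)
    {z z' : K × ℕ → Bool} (hz : Extends z r) (hz' : Extends z' r) : ∀ d ∈ F, z d = z' d := by
  rintro ⟨k, n⟩ hdF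
  obtain ⟨b, hb⟩ := Option.ne_none_iff_exists'.1 (hd (k, n) hdF)
  rw [hz k n b hb, hz' k n b hb]

end fillfacts

open Classical in
/-- the name of the function -/
noncomputable def WN {K : Type u} (EW : ℕ → Finset (K × ℕ)) (vw : ℕ → Finset (K × ℕ) → ℕ)
    (i j : ℕ) : Set (Cond K) :=
  {r | Decides r (EW i) ∧ vw i ((EW i).filter fun d => r.val d.1 d.2 = some true) = j}

open Classical in
theorem vw_of_mem {K : Type u} {EW : ℕ → Finset (K × ℕ)} {vw : ℕ → Finset (K × ℕ) → ℕ}
    {i j : ℕ} {s r : Cond K} {z : K × ℕ → Bool} (hs : s ∈ WN EW vw i j) (hr : r ≤ s)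
    (hz : Extends z r) : vw i ((EW i).filter fun d => z d = true) = j := by
  rw [← hs.2]
  congr 1
  apply Finset.filter_congr
  rintro ⟨k, n⟩ hd
  obtain ⟨b, hb⟩ := Option.ne_none_iff_exists'.1 (hs.1 (k, n) hd)
  have h1 := hz k n b (hr k n b hb)
  rw [h1]
  change b = true ↔ s.val k n = some true
  rw [hb]
  exact Option.some_inj.symm

theorem name : S_NAME := by
  classical
  intro K q ψ c Eψ Ec hψ hdψ hdc s EW vw hG
  obtain ⟨hsq, hG⟩ := hG
  have hfun : s ∈ IsFun (WN EW vw) := by
    constructor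
    · intro i
      refine mem_fex.2 fun r _ => ?_
      obtain ⟨z, hz⟩ := exists_extends r
      refine ⟨fill r z (EW i), fill_le _ _ _, _, meets_of_mem ⟨decides_fill _ _ _, rfl⟩⟩
    · intro i j j'
      refine mem_fimp.2 fun r _ hr => ?_
      obtain ⟨r1, hr1, s1, hs1, hrs1⟩ := hr.1 r le_rfl
      obtain ⟨r2, hr2, s2, hs2, hrs2⟩ := hr.2 r1 hr1
      obtain ⟨z, hz⟩ := exists_extends r2
      refine ⟨r2, hr2.trans hr1, ?_⟩
      change j = j'
      rw [← vw_of_mem hs1 (hr2.trans hrs1) hz, ← vw_of_mem hs2 hrs2 hz]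
  have hmain : s ∈ fall fun a : Finset ℕ => fall fun l : List ℕ =>
      fimp (fand (CutN a l.length ψ)
        (fall fun i : ℕ => fimp (fground (i < l.length)) (meets (WN EW vw i (l.getD i 0)))))
        (meets (c a l)) := by
    intro a l
    refine mem_fimp.2 fun r hrs hr => ?_
    obtain ⟨hcut, hW⟩ := hr
    obtain ⟨z, hz⟩ := exists_extends r
    set H : Finset (K × ℕ) := Ec a l ∪ (Finset.range l.length).biUnion (fun i => EW i ∪ Eψ i)
      with hH
    have hEcH : Ec a l ⊆ H := Finset.subset_union_left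
    have hEH : ∀ i < l.length, EW i ∪ Eψ i ⊆ H := by
      intro i hi
      refine Finset.Subset.trans ?_ Finset.subset_union_right
      exact Finset.subset_biUnion_of_mem (fun i => EW i ∪ Eψ i) (Finset.mem_range.2 hi)
    set r' := fill r z H with hr'
    have hr'r : r' ≤ r := fill_le _ _ _
    have hr's : r' ≤ s := hr'r.trans hrs
    have hr'q : r' ≤ q := hr's.trans hsq
    have hr'H : Decides r' H := decides_fill _ _ _
    have hzr' : Extends z r' := extends_fill H hz
    have hzs : Extends z s := extends_mono hr's hzr'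
    have hl : ∀ i, i < l.length → l.getD i 0 = vw i ((EW i).filter fun d => z d = true) := by
      intro i hi
      obtain ⟨r1, hr1, hm⟩ := mem_fimp.1 (hW i) r' hr'r hi
      obtain ⟨r2, hr2, s2, hs2, hrs2⟩ := hm r1 le_rfl
      obtain ⟨z2, hz2⟩ := exists_extends r2
      rw [← vw_of_mem hs2 hrs2 hz2]
      congr 1
      apply Finset.filter_congr
      intro d hd
      have h1 : z2 d = z d := extends_agree
        (decides_subset ((Finset.subset_union_left).trans (hEH i hi)) hr'H)
        (extends_mono (hr2.trans hr1) hz2) hzr' d hd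
      rw [h1]
    have hRd := hG z hzs l hl
    have hprem : ∀ i, i ∈ a ↔ i < l.length ∧ fill q z (Eψ i) ∈ ψ i := by
      intro i
      have hle : i < l.length → r' ≤ fill q z (Eψ i) := fun hi =>
        le_fill hr'q (decides_subset ((Finset.subset_union_right).trans (hEH i hi)) hr'H) hzr'
      constructor
      · intro hia
        obtain ⟨r1, hr1, hi, hr1ψ⟩ := mem_fimp.1 (hcut i).1 r' hr'r hia
        refine ⟨hi, ?_⟩
        rcases hdψ i (fill q z (Eψ i)) (fill_le _ _ _) (decides_fill _ _ _) with h | h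
        · exact h
        · exact absurd hr1ψ (h r1 (hr1.trans (hle hi)))
      · rintro ⟨hi, hf⟩
        obtain ⟨r1, hr1, hia⟩ := mem_fimp.1 (hcut i).2 r' hr'r ⟨hi, hψ i _ hf _ (hle hi)⟩
        exact hia
    have hfin := hRd a hprem
    refine ⟨r', hr'r, ?_⟩
    exact down_meets _ _ hfin _ (le_fill hr'q (decides_subset hEcH hr'H) hzr')
  exact mem_fex_of_mem (WN EW vw) (down_fand (down_IsFun _)
    (down_fall fun _ => down_fall fun _ => down_fimp _ _)) ⟨hfun, hmain⟩

end Pool.Agent.W479.SG
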